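import Pool.Agent.KT3.StmtsC

/-!
# Row EVN of squad KT3: eigenvectors with different eigenvalues are nonunits
-/

set_option autoImplicit false

open Matrix Filter Topology

namespace Pool.Agent.KT3.H94

open Pool.Agent.PFS Pool.Agent.PFJ Pool.Agent.NBT Pool.Agent.KT3

/-- geometric decay: the limit -/
lemma lim_neg {n : ℕ} {C : Set (V n)} (x y : V n) (M r : ℝ) (hr0 : 0 ≤ r) (hr1 : r < 1)
    (h : ∀ j : ℕ, (M * r ^ j) • x - y ∈ closure C) : -y ∈ closure C := by
  have h1 : Tendsto (fun j : ℕ => (M * r ^ j) • x - y) atTop (𝓝 ((M * 0) • x - y)) :=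
    (((tendsto_pow_atTop_nhds_zero_of_lt_one hr0 hr1).const_mul M).smul_const x).sub
      tendsto_const_nhds
  rw [mul_zero, zero_smul, zero_sub] at h1
  exact isClosed_closure.mem_of_tendsto h1 (Eventually.of_forall h)

theorem evn : EvnStmt := by
  intro n C Γ hC g hg s L x y μ ν hs hxL hyL hx hy hx0 hy0 hgx hgy hν hνμ
  have hμ : 0 < μ := hν.trans hνμ
  have hr0 : 0 ≤ ν / μ := (div_pos hν hμ).le
  have hr1 : ν / μ < 1 := (div_lt_one hμ).2 hνμ
  have hlin : ∀ a b : ℝ, s • act g (a • x + b • y) = (a * μ) • x + (b * ν) • y := by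
    intro a b
    rw [CC.act_add, CC.act_smul, CC.act_smul, smul_add, smul_comm s a, smul_comm s b, hgx, hgy,
      smul_smul, smul_smul]
  refine ⟨?_, ?_, ?_⟩
  · rintro ⟨_, _, hu⟩
    obtain ⟨M, _, hM⟩ := hu y hyL
    have key : ∀ j : ℕ, (M * (ν / μ) ^ j) • x - y ∈ closure C := by
      intro j
      induction j with
      | zero => rw [pow_zero, mul_one]; exact hM
      | succ j ih =>
        set c := M * (ν / μ) ^ j with hc
        have h1 : (c * μ⁻¹) • x + (-ν⁻¹) • y ∈ closure C := by
          rw [← hC.sact_cl_iff hg hs, hlin]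
          have e1 : c * μ⁻¹ * μ = c := by field_simp
          have e2 : -ν⁻¹ * ν = -1 := by field_simp
          rw [e1, e2, neg_smul, one_smul, ← sub_eq_add_neg]
          exact ih
        have h2 := hC.cl_smul h1 hν.le
        have e3 : ν • ((c * μ⁻¹) • x + (-ν⁻¹) • y) = (M * (ν / μ) ^ (j + 1)) • x - y := by
          rw [smul_add, smul_smul, smul_smul]
          have e4 : ν * (c * μ⁻¹) = M * (ν / μ) ^ (j + 1) := by
            rw [hc, pow_succ]; field_simp
          have e5 : ν * -ν⁻¹ = -1 := by field_simp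
          rw [e4, e5, neg_smul, one_smul, ← sub_eq_add_neg]
        rwa [e3] at h2
    exact hy0 (hC.salient y hy (lim_neg x y M _ hr0 hr1 key))
  · rintro ⟨_, _, hu⟩
    obtain ⟨M, _, hM⟩ := hu x hxL
    have key : ∀ j : ℕ, (M * (ν / μ) ^ j) • y - x ∈ closure C := by
      intro j
      induction j with
      | zero => rw [pow_zero, mul_one]; exact hM
      | succ j ih =>
        set c := M * (ν / μ) ^ j with hc
        have h1 : s • act g ((-1 : ℝ) • x + c • y) ∈ closure C := by
          rw [hC.sact_cl_iff hg hs, neg_smul, one_smul, neg_add_eq_sub]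
          exact ih
        rw [hlin] at h1
        have h2 := hC.cl_smul h1 (inv_pos.2 hμ).le
        have e3 : μ⁻¹ • ((-1 * μ) • x + (c * ν) • y) = (M * (ν / μ) ^ (j + 1)) • y - x := by
          rw [smul_add, smul_smul, smul_smul]
          have e4 : μ⁻¹ * (c * ν) = M * (ν / μ) ^ (j + 1) := by
            rw [hc, pow_succ]; field_simp
          have e5 : μ⁻¹ * (-1 * μ) = -1 := by field_simp
          rw [e4, e5, neg_smul, one_smul, neg_add_eq_sub]
        rwa [e3] at h2
    exact hx0 (hC.salient x hx (lim_neg y x M _ hr0 hr1 key))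
  · intro a b hab
    have h1 := hlin a b
    rw [hab, CC.act_zero, smul_zero] at h1
    have h2 : (a * (μ - ν)) • x = 0 := by
      have h3 : (a * μ) • x + (b * ν) • y - ν • (a • x + b • y) = 0 := by
        rw [← h1, hab, smul_zero, sub_zero]
      have h4 : (a * μ) • x + (b * ν) • y - ν • (a • x + b • y) = (a * (μ - ν)) • x := by
        rw [smul_add, smul_smul, smul_smul, mul_sub, sub_smul, mul_comm ν a, mul_comm ν b]
        abel
      rw [← h4, h3]
    have ha : a = 0 := by
      rcases smul_eq_zero.1 h2 with h | h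
      · rcases mul_eq_zero.1 h with h' | h'
        · exact h'
        · exact absurd h' (sub_pos.2 hνμ).ne'
      · exact absurd h hx0
    subst ha
    rw [zero_smul, zero_add] at hab
    rcases smul_eq_zero.1 hab with h | h
    · exact ⟨rfl, h⟩
    · exact absurd h hy0

end Pool.Agent.KT3.H94
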